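import Pool.Agent.W198.TC.Main

/-! Pairs of close ordinates: from the sum over zeros of the number of close zeros to the number of
ordered pairs. -/

open Complex Filter Topology Set MeasureTheory

namespace Pool.Agent.W503.TCF

open TC

lemma two_pairs (Z : Finset ℝ) (m : ℝ → ℕ) (hm : ∀ g ∈ Z, 1 ≤ m g) (r : ℝ) (hr : 0 ≤ r) :
    2 * ∑ g ∈ Z, ∑ g' ∈ Z.filter (fun g' => 0 < g - g' ∧ g - g' ≤ r), m g * m g' ≤
      ∑ g ∈ Z, m g * (kk Z m r g - 1) := by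
  classical
  have hA : ∀ g ∈ Z, (∑ g' ∈ Z.filter (fun g' => 0 < g - g' ∧ g - g' ≤ r), m g') +
      (∑ g' ∈ Z.filter (fun g' => 0 < g' - g ∧ g' - g ≤ r), m g') ≤ kk Z m r g - 1 := by
    intro g hg
    have hdis : Disjoint (Z.filter (fun g' => 0 < g - g' ∧ g - g' ≤ r))
        (Z.filter (fun g' => 0 < g' - g ∧ g' - g ≤ r)) := by
      rw [Finset.disjoint_left]
      intro x hx hx'
      rw [Finset.mem_filter] at hx hx'
      linarith [hx.2.1, hx'.2.1]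
    have hnot : g ∉ (Z.filter (fun g' => 0 < g - g' ∧ g - g' ≤ r)) ∪
        (Z.filter (fun g' => 0 < g' - g ∧ g' - g ≤ r)) := by
      rw [Finset.mem_union, Finset.mem_filter, Finset.mem_filter]
      rintro (h | h) <;> linarith [h.2.1]
    have h1 : m g + ((∑ g' ∈ Z.filter (fun g' => 0 < g - g' ∧ g - g' ≤ r), m g') +
      (∑ g' ∈ Z.filter (fun g' => 0 < g' - g ∧ g' - g ≤ r), m g')) ≤ kk Z m r g := by
      rw [← Finset.sum_union hdis, ← Finset.sum_insert hnot]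
      unfold kk
      apply Finset.sum_le_sum_of_subset
      intro x hx
      rw [Finset.mem_insert, Finset.mem_union, Finset.mem_filter, Finset.mem_filter] at hx
      rw [Finset.mem_filter]
      rcases hx with rfl | hx | hx
      · exact ⟨hg, by simpa using hr⟩
      · refine ⟨hx.1, ?_⟩
        rw [abs_le]
        constructor <;> linarith [hx.2.1, hx.2.2]
      · refine ⟨hx.1, ?_⟩
        rw [abs_le]
        constructor <;> linarith [hx.2.1, hx.2.2]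
    have := hm g hg
    omega
  have hsw : ∑ g ∈ Z, ∑ g' ∈ Z.filter (fun g' => 0 < g' - g ∧ g' - g ≤ r), m g * m g' =
      ∑ g ∈ Z, ∑ g' ∈ Z.filter (fun g' => 0 < g - g' ∧ g - g' ≤ r), m g * m g' := by
    rw [Finset.sum_comm' (t' := Z) (s' := fun g => Z.filter (fun g' => 0 < g - g' ∧ g - g' ≤ r))]
    · apply Finset.sum_congr rfl
      intro g _
      apply Finset.sum_congr rfl
      intro g' _
      ring
    · intro x y
      simp only [Finset.mem_filter]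
      tauto
  calc 2 * ∑ g ∈ Z, ∑ g' ∈ Z.filter (fun g' => 0 < g - g' ∧ g - g' ≤ r), m g * m g'
      = ∑ g ∈ Z, ∑ g' ∈ Z.filter (fun g' => 0 < g - g' ∧ g - g' ≤ r), m g * m g' +
        ∑ g ∈ Z, ∑ g' ∈ Z.filter (fun g' => 0 < g' - g ∧ g' - g ≤ r), m g * m g' := by
          rw [hsw]; ring
    _ = ∑ g ∈ Z, m g * ((∑ g' ∈ Z.filter (fun g' => 0 < g - g' ∧ g - g' ≤ r), m g') +
      (∑ g' ∈ Z.filter (fun g' => 0 < g' - g ∧ g' - g ≤ r), m g')) := by
          rw [← Finset.sum_add_distrib]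
          apply Finset.sum_congr rfl
          intro g _
          rw [mul_add, Finset.mul_sum, Finset.mul_sum]
    _ ≤ _ := Finset.sum_le_sum fun g hg => Nat.mul_le_mul_left _ (hA g hg)

/-- multiplicities of ordinates are positive -/
lemma mu_pos (hRH : RiemannHypothesis) {T g : ℝ} (h : g ∈ ordT T) : 1 ≤ mu g := by
  unfold ordT at h
  rw [Finset.mem_image] at h
  obtain ⟨s, hs, rfl⟩ := h
  rw [GlobAux.mem_Z0] at hs
  unfold mu
  rw [GlobAux.eq_half hRH hs.1 hs.2.1 hs.2.2.2.2]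
  exact H370.Loc.mult_pos' H370.good_zeta hs.2.2.1 hs.2.2.2.2

lemma im_injOn (hRH : RiemannHypothesis) (T : ℝ) :
    Set.InjOn Complex.im (H343.ZSide.Z0 T : Set ℂ) := by
  intro s hs s' hs' h
  rw [Finset.mem_coe, GlobAux.mem_Z0] at hs hs'
  apply Complex.ext
  · rw [GlobAux.re_half hRH hs.1 hs.2.1 hs.2.2.2.2, GlobAux.re_half hRH hs'.1 hs'.2.1 hs'.2.2.2.2]
  · exact h

/-- pairs of zeros and pairs of ordinates -/
lemma conv (hRH : RiemannHypothesis) (T : ℝ) (P : ℝ → ℝ → Prop) [∀ a b, Decidable (P a b)] :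
    ∑ s ∈ H343.ZSide.Z0 T, ∑ s' ∈ (H343.ZSide.Z0 T).filter (fun s' => P s.im s'.im),
      analyticOrderNatAt riemannZeta s * analyticOrderNatAt riemannZeta s' =
    ∑ g ∈ ordT T, ∑ g' ∈ (ordT T).filter (fun g' => P g g'), mu g * mu g' := by
  classical
  have hinj := im_injOn hRH T
  have hmu : ∀ s ∈ H343.ZSide.Z0 T, mu s.im = analyticOrderNatAt riemannZeta s := by
    intro s hs
    rw [GlobAux.mem_Z0] at hs
    unfold mu H370.mult
    rw [GlobAux.eq_half hRH hs.1 hs.2.1 hs.2.2.2.2]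
  unfold ordT
  rw [Finset.sum_image hinj]
  apply Finset.sum_congr rfl
  intro s hs
  rw [Finset.filter_image, Finset.sum_image (hinj.mono (by
    intro x hx
    rw [Finset.mem_coe, Finset.mem_filter] at hx
    exact hx.1))]
  apply Finset.sum_congr rfl
  intro s' hs'
  rw [hmu s hs, hmu s' (Finset.mem_filter.1 hs').1]

/-- the kernel at distance `β` mean spacings -/
lemma Qx_eq (β : ℝ) : Qx (2 * Real.pi * β) = (53 / 60 - 79 / 600 * Real.pi ^ 2 * β ^ 2) ^ 2 := by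
  unfold Qx
  congr 1
  ring

/-- the main bound for pairs of ordinates -/
theorem pairs_bound (hRH : RiemannHypothesis) (β : ℝ) (hβ : 0 ≤ β)
    (h1 : 0 < 53 / 60 - 79 / 600 * Real.pi ^ 2 * β ^ 2)
    (hD : 1 / 8 ≤ 2 * (53 / 60 - 79 / 600 * Real.pi ^ 2 * β ^ 2) ^ 2 - 1037 / 1000)
    (ε : ℝ) (hε : 0 < ε) :
    ∃ T₀ : ℝ, ∀ T : ℝ, T₀ ≤ T →
      ((∑ g ∈ ordT T, ∑ g' ∈ (ordT T).filter (fun g' => 0 < g - g' ∧
        g - g' ≤ 2 * Real.pi * β / Real.log T), mu g * mu g' : ℕ) : ℝ) ≤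
      1 / 2 * (151 / 1250 / (151 / 1250 + (2 * (53 / 60 - 79 / 600 * Real.pi ^ 2 * β ^ 2) ^ 2 -
        1037 / 1000) ^ 2) + ε) * (T / (2 * Real.pi) * Real.log T) := by
  have hpi := Real.pi_pos
  obtain ⟨T1, hT1⟩ := close_pairs hRH (2 * Real.pi * β) (by positivity)
    (by
      have : 53 / 60 - 79 / 2400 * (2 * Real.pi * β) ^ 2 =
        53 / 60 - 79 / 600 * Real.pi ^ 2 * β ^ 2 := by ring
      rw [this]; exact h1)
    (by
      rw [Qx_eq]
      unfold vv EE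
      refine le_trans ?_ hD
      norm_num) ε hε
  refine ⟨max T1 2, fun T hT => ?_⟩
  have hT2 : 2 ≤ T := (le_max_right _ _).trans hT
  have hlog : 0 < Real.log T := Real.log_pos (by linarith)
  have hr0 : 0 ≤ 2 * Real.pi * β / Real.log T := by positivity
  have h2 := hT1 T ((le_max_left _ _).trans hT) (2 * Real.pi * β / Real.log T) hr0
    (by rw [div_mul_cancel₀ _ hlog.ne'])
  have h3 := two_pairs (ordT T) mu (fun g hg => mu_pos hRH hg) _ hr0
  have h4 : (2 : ℝ) * ((∑ g ∈ ordT T, ∑ g' ∈ (ordT T).filter (fun g' => 0 < g - g' ∧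
        g - g' ≤ 2 * Real.pi * β / Real.log T), mu g * mu g' : ℕ) : ℝ) ≤
      ∑ g ∈ ordT T, (mu g : ℝ) * (((kk (ordT T) mu (2 * Real.pi * β / Real.log T) g - 1 : ℕ)) : ℝ) := by
    have h5 : ((2 * ∑ g ∈ ordT T, ∑ g' ∈ (ordT T).filter (fun g' => 0 < g - g' ∧
        g - g' ≤ 2 * Real.pi * β / Real.log T), mu g * mu g' : ℕ) : ℝ) ≤
        ((∑ g ∈ ordT T, mu g * (kk (ordT T) mu (2 * Real.pi * β / Real.log T) g - 1) : ℕ) : ℝ) :=
      Nat.cast_le.2 h3
    rw [Nat.cast_mul, Nat.cast_ofNat] at h5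
    refine h5.trans (le_of_eq ?_)
    rw [Nat.cast_sum]
    apply Finset.sum_congr rfl
    intro g _
    rw [Nat.cast_mul]
  have h6 := h4.trans h2
  rw [Qx_eq] at h6
  have hvv : vv = 151 / 1250 := by unfold vv; norm_num
  have hEE : EE = 1037 / 1000 := rfl
  rw [hvv, hEE] at h6
  have h7 : T * Real.log T / (2 * Real.pi) = T / (2 * Real.pi) * Real.log T := by ring
  rw [h7] at h6
  linarith

lemma pi_sq_lt : Real.pi ^ 2 < 98697 / 10000 := by
  have h1 := Real.pi_lt_d6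
  have h0 := Real.pi_pos
  nlinarith

/-- numerical form -/
lemma num_bound (β b D c : ℝ) (hβ0 : 0 ≤ β) (hβ : β ≤ b) (hb : b ≤ 1 / 10)
    (hD : D = 2 * (53 / 60 - 79 / 600 * (98697 / 10000) * b ^ 2) ^ 2 - 1037 / 1000)
    (hc : 151 / 1250 / (151 / 1250 + D ^ 2) < c) (hD8 : 1 / 8 ≤ D) :
    0 < 53 / 60 - 79 / 600 * Real.pi ^ 2 * β ^ 2 ∧
    1 / 8 ≤ 2 * (53 / 60 - 79 / 600 * Real.pi ^ 2 * β ^ 2) ^ 2 - 1037 / 1000 ∧
    151 / 1250 / (151 / 1250 + (2 * (53 / 60 - 79 / 600 * Real.pi ^ 2 * β ^ 2) ^ 2 -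
        1037 / 1000) ^ 2) < c := by
  have hpi := pi_sq_lt
  have hb0 : 0 ≤ b := hβ0.trans hβ
  have h1 : β ^ 2 ≤ b ^ 2 := pow_le_pow_left₀ hβ0 hβ 2
  have h2 : Real.pi ^ 2 * β ^ 2 ≤ 98697 / 10000 * b ^ 2 := by
    have := sq_nonneg β
    nlinarith
  have h3 : b ^ 2 ≤ 1 / 100 := by nlinarith
  have h4 : 0 < 53 / 60 - 79 / 600 * (98697 / 10000) * b ^ 2 := by nlinarith
  have h5 : 53 / 60 - 79 / 600 * (98697 / 10000) * b ^ 2 ≤
      53 / 60 - 79 / 600 * Real.pi ^ 2 * β ^ 2 := by nlinarith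
  have h6 : (53 / 60 - 79 / 600 * (98697 / 10000) * b ^ 2) ^ 2 ≤
      (53 / 60 - 79 / 600 * Real.pi ^ 2 * β ^ 2) ^ 2 := pow_le_pow_left₀ h4.le h5 2
  have h7 : D ≤ 2 * (53 / 60 - 79 / 600 * Real.pi ^ 2 * β ^ 2) ^ 2 - 1037 / 1000 := by
    rw [hD]; linarith
  refine ⟨h4.trans_le h5, hD8.trans h7, lt_of_le_of_lt ?_ hc⟩
  have h8 : D ^ 2 ≤ (2 * (53 / 60 - 79 / 600 * Real.pi ^ 2 * β ^ 2) ^ 2 - 1037 / 1000) ^ 2 :=
    pow_le_pow_left₀ (by linarith) h7 2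
  apply div_le_div_of_nonneg_left (by norm_num) (by positivity)
  linarith

end Pool.Agent.W503.TCF
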